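import Mathlib
import Pool.Agent.N423.DE.Fin

/-!
# The generic rigidity matroid on graphs with a dominating edge

The rank formula of Clinch, Jackson and Tanigawa and Graver's maximality conjecture hold in the
generic `3`-dimensional rigidity matroid for all graphs with a dominating edge, that is, for all
graphs whose complement has diameter at least three, and more generally for all graphs with two
linked vertices such that every other vertex is linked to at least one of them.

In `ℝ^d` there are `d - 1` pairwise linked vertices in the place of the two, and every other vertex
has to be linked to all but at most one of them. For `d = 2` these are all graphs.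

The proof is an induction over closed graphs. A basis of a closed graph that is not rigid has at
least four vertices of degree `d + 1` outside the hub, or one of smaller degree, since the average
degree is less than `d + 2`; and not all of the four can be bad (`Pool.Agent.N423.DE.main_aux`).
-/

set_option autoImplicit false

namespace Pool.Agent.Results.MP_37c7bf_co.DominatingEdge

open Pool.Agent.H283R2.DR Pool.Agent.H789R5 Pool.Agent.N423.DE

/-- **The rank of graphs with a dominating edge.** Let `R` be a set of `d - 1` vertices of the graph
`G` which are pairwise linked in `G` in `ℝ^d`, and let every other vertex be linked to at least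
`d - 2` vertices of `R` (for `d = 3`: two linked vertices such that every other vertex is linked
to at least one of them; adjacent vertices are linked). Then the rank of `G` in the generic
`d`-dimensional rigidity matroid is the minimum of `|E(G ∪ K_{A_1} ∪ … ∪ K_{A_t})| - t` over all
sequences of sets `A_1, …, A_t` with `d + 2` vertices such that each contains a pair which is
contained in none of the sets before it; so `G` is generically rigid in `ℝ^d` if and only if this
number is at least `d n - d (d + 1) / 2` for all these sequences; and no matroid on the pairs of
vertices in which the complete graphs with `d + 2` vertices are circuits gives `G` a larger rank. -/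
theorem result (d : ℕ) (V : Type) [Fintype V] (G : SimpleGraph V) (R : Finset V)
    (hR : R.card + 1 = d) (hlink : ∀ a ∈ R, ∀ b ∈ R, a ≠ b → Linked d G a b)
    (hdom : ∀ v, v ∉ R → ∃ S ⊆ R, d ≤ S.card + 2 ∧ ∀ r ∈ S, Linked d G v r) :
    IsLeast {m : ℕ | ∃ L : List (Finset V), Proper (d + 2) L ∧
      m + L.length = (cover G L).edgeSet.ncard} (genRank d G) ∧
    (d ≤ Fintype.card V → (GenRigid d G ↔ ∀ L : List (Finset V), Proper (d + 2) L →
      d * Fintype.card V + L.length ≤ (cover G L).edgeSet.ncard + d * (d + 1) / 2)) ∧
    (∀ M : Matroid (Sym2 V), (∀ A : Finset V, A.card = d + 2 → M.IsCircuit (pairs A)) →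
      M.eRk G.edgeSet ≤ genRank d G) := by
  classical
  obtain ⟨p, hp⟩ := exists_mg V d
  obtain ⟨L, hL, hLeq⟩ := lower_hub hp hR hlink hdom
  have hr := genRank_add hp G
  have hup : ∀ L : List (Finset V), Proper (d + 2) L →
      genRank d G + L.length ≤ (cover G L).edgeSet.ncard := by
    intro L hL
    have := upper hp G hL
    omega
  have hk : genRank d G + L.length = (cover G L).edgeSet.ncard := by omega
  refine ⟨⟨⟨L, hL, hk⟩, ?_⟩, ?_, fun M hM => matroid_le hM G hL hk⟩
  · rintro m ⟨L', hL', hm⟩
    have := hup L' hL'
    omega
  · intro hd
    rw [genRigid_iff hp hd]
    constructor
    · intro h L' hL'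
      have := hup L' hL'
      omega
    · intro h
      have := h L hL
      omega

end Pool.Agent.Results.MP_37c7bf_co.DominatingEdge
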