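import Mathlib
import Pool.Agent.N423.DC.AllT

/-!
# The rank formula for graphs with a dominating rigid subgraph

The rank formula of Clinch, Jackson and Tanigawa (known for the cofactor matroid) holds in the
generic `3`-dimensional rigidity matroid for all graphs with a set `R` of pairwise linked vertices
such that every other vertex is linked to at least one vertex of `R`. For all graphs with a
dominating set `R` the formula gives the rank up to the number `3 |R| - 6` of degrees of freedom.

Proof. (1) An edge `f` of a closed graph `G` of this kind that is implied by the other edges is in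
a complete graph with five vertices (`Pool.Agent.N423.DT.t_k5t`): a minimal subgraph in which `f`
is implied has, unless there is a vertex of degree at most four that can be removed, degree five at
all vertices outside of `R`, exactly one edge from each of them to `R`, one degree of freedom, and
it is closed; this is impossible (`Pool.Agent.N423.DC.t_core`). (2) A closed graph that is not
complete has a vertex `v` outside of `R` with gain at most four; if `v` has at least five
neighbours, they are a complete graph and at most one further vertex: this follows from (1) and the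
fact that two different complete graphs through `v` cannot be moved apart with one degree of freedom
only (`Pool.Agent.N423.DT.ttwo`). (3) Induction over the closed graphs
(`Pool.Agent.N423.DT.t_seq`).

Paper proof and assembly: helper423. Lean parts: helpers 233, 360, 578, 803, and, for
`Pool.Agent.N423.DC.t_core`, helpers 222, 401, 519, 232, 499, 787, 441, 286, 51, 879, 221, 935, 697,
495, 273, 492, 596, 368, 27, 55, 559, 50, 407, 433, 654, 723, 475, 768.
-/

set_option autoImplicit false

namespace Pool.Agent.Results.MP_37c7bf_co.RigidHubRankFormula

open Pool.Agent.H283R2.DR Pool.Agent.H789R5 Pool.Agent.N423.DE Pool.Agent.N423.DC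
  Pool.Agent.N423.DT

/-- `G` together with all edges inside the set `R` -/
def fill {V : Type} (G : SimpleGraph V) (R : Finset V) : SimpleGraph V where
  Adj x y := x ≠ y ∧ (G.Adj x y ∨ (x ∈ R ∧ y ∈ R))
  symm := ⟨fun _ _ h => ⟨h.1.symm, h.2.imp (fun h => h.symm) fun h => ⟨h.2, h.1⟩⟩⟩
  loopless := ⟨fun _ h => h.1 rfl⟩

theorem le_fill {V : Type} (G : SimpleGraph V) (R : Finset V) : G ≤ fill G R :=
  fun _ _ h => ⟨h.ne, Or.inl h⟩

/-- making a set rigid costs at most its number of degrees of freedom -/
theorem fill_le {V : Type} [Fintype V] {p : V → Fin 3 → ℝ} (hp : MG p) (G : SimpleGraph V)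
    {R : Finset V} (hR : 3 ≤ R.card) : mo G p + 6 ≤ mo (fill G R) p + 3 * R.card := by
  classical
  -- a rigid subgraph of the complete graph on `R` with few edges
  obtain ⟨B, -, hB, hBc, hBm⟩ := exists_basis p (S := ⊥) (G := Pool.Agent.N423.DE.cmp R) bot_le (by
    have := mo_le (⊥ : SimpleGraph V) p
    simpa using this)
  have h1 := mo_cmpR hR hp
  have h2 : mo (G ⊔ B) p ≤ mo (fill G R) p := by
    apply mo_le_of_imp
    rintro x y ⟨hxy, h | h⟩
    · exact imp_of_adj (Or.inl h)
    · have h3 : Imp B p x y := imp_of_mo_le hB (by omega) (show (Pool.Agent.N423.DE.cmp R).Adj x y from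
        ⟨hxy, h.1, h.2⟩)
      exact h3.mono le_sup_right
  have h3 := mo_le_add (G := G) (G' := G ⊔ B) p
  have h4 : ((G ⊔ B).edgeSet \ G.edgeSet).ncard ≤ B.edgeSet.ncard := by
    apply Set.ncard_le_ncard _ (Set.toFinite _)
    rintro e ⟨he, hne⟩
    rw [SimpleGraph.edgeSet_sup] at he
    exact he.resolve_left hne
  omega

/-- **The rank of graphs with a dominating set.** Let `G` be any finite graph and `R` a nonempty
set of vertices such that each other vertex is adjacent to some vertex of `R`, or at least linked to
some vertex of `R` when all edges inside `R` are added to `G`. Let `m` be the minimum of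
`|E(G ∪ K_{A_1} ∪ … ∪ K_{A_t})| - t` over all sequences of sets `A_1, …, A_t` with five vertices such
that each contains a pair which is contained in none of the sets before it. Then the rank of `G` in
the generic `3`-dimensional rigidity matroid is at most `m`, and `m` is at most the rank of the
graph `fill G R`, which is `G` with all edges inside `R` added; so `m` exceeds the rank of `G` by at
most `3 |R| - 6` (if `|R| ≥ 3`).

If the vertices of `R` are pairwise linked in `G` in `ℝ^3` (adjacent pairs are linked; e.g. `R` is a
dominating clique, or the vertex set of a generically rigid subgraph with a neighbour of every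
vertex), then the rank of `G` is exactly `m`, and `G` (with `n ≥ 3` vertices) is generically rigid in
`ℝ^3` if and only if all these numbers are at least `3 n - 6`; and no matroid on the pairs of
vertices in which the complete graphs with five vertices are circuits gives `G` a larger rank. -/
theorem result (V : Type) [Fintype V] (G : SimpleGraph V) (R : Finset V) (hR : R.Nonempty)
    (hdom : ∀ v, v ∉ R → ∃ r ∈ R, Linked 3 (fill G R) v r) :
    ((∀ L : List (Finset V), Proper 5 L → genRank 3 G + L.length ≤ (cover G L).edgeSet.ncard) ∧
      (∃ L : List (Finset V), Proper 5 L ∧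
        (cover G L).edgeSet.ncard ≤ genRank 3 (fill G R) + L.length) ∧
      (3 ≤ R.card → genRank 3 (fill G R) + 6 ≤ genRank 3 G + 3 * R.card)) ∧
    ((∀ a ∈ R, ∀ b ∈ R, a ≠ b → Linked 3 G a b) →
      IsLeast {m : ℕ | ∃ L : List (Finset V), Proper 5 L ∧
        m + L.length = (cover G L).edgeSet.ncard} (genRank 3 G) ∧
      (3 ≤ Fintype.card V → (GenRigid 3 G ↔ ∀ L : List (Finset V), Proper 5 L →
        3 * Fintype.card V + L.length ≤ (cover G L).edgeSet.ncard + 6)) ∧
      (∀ M : Matroid (Sym2 V), (∀ A : Finset V, A.card = 5 → M.IsCircuit (pairs A)) →
        M.eRk G.edgeSet ≤ genRank 3 G)) := by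
  classical
  obtain ⟨p, hp⟩ := exists_mg V 3
  have hr := genRank_add hp G
  have hr' := genRank_add hp (fill G R)
  have hup : ∀ L : List (Finset V), Proper 5 L →
      genRank 3 G + L.length ≤ (cover G L).edgeSet.ncard := by
    intro L hL
    have := upper hp G hL
    omega
  have hLH : LHub (fill G R) R := by
    refine ⟨fun a ha b hb hab => ?_, hdom⟩
    exact linked_of_imp hp (imp_of_adj ⟨hab, Or.inr ⟨ha, hb⟩⟩)
  obtain ⟨L, hL, hLeq⟩ := eq_all t_seq hp hR hLH
  have hle : (cover G L).edgeSet.ncard ≤ (cover (fill G R) L).edgeSet.ncard := by
    apply Set.ncard_le_ncard _ (Set.toFinite _)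
    apply SimpleGraph.edgeSet_subset_edgeSet.2
    rintro x y ⟨hxy, h | h⟩
    · exact ⟨hxy, Or.inl (le_fill G R h)⟩
    · exact ⟨hxy, Or.inr h⟩
  refine ⟨⟨hup, ⟨L, hL, by omega⟩, ?_⟩, ?_⟩
  · intro h3
    have := fill_le hp G h3
    omega
  · intro hlink
    have hmo : mo G p ≤ mo (fill G R) p := by
      apply mo_le_of_imp
      rintro x y ⟨hxy, h | h⟩
      · exact imp_of_adj h
      · exact imp_of_linked hp hxy (hlink x h.1 y h.2 hxy)
    have hk : genRank 3 G + L.length = (cover G L).edgeSet.ncard := by
      have := hup L hL
      omega
    refine ⟨⟨⟨L, hL, hk⟩, ?_⟩, ?_, fun M hM => matroid_le hM G hL hk⟩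
    · rintro m ⟨L', hL', hm⟩
      have := hup L' hL'
      omega
    · intro hd
      rw [genRigid_iff hp hd]
      constructor
      · intro h L' hL'
        have := hup L' hL'
        omega
      · intro h
        have := h L hL
        omega

end Pool.Agent.Results.MP_37c7bf_co.RigidHubRankFormula
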