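import Mathlib
import Pool.Agent.N423.HB.Sev
import Pool.Agent.N423.HB.K4d
import Pool.Agent.N423.HB.K5c

/-!
# Connectivity and rigidity in three-space for graphs with a dominating clique

Every `7`-connected graph with a nonempty clique `R` such that every other vertex has a neighbour
in `R` is generically rigid in `ℝ³`; `5`-connectivity is enough if every edge is in a `K_4`, and
`4`-connectivity is enough if every other vertex has two neighbours in `R`. More generally, instead
of being adjacent the vertices may be linked. (For all graphs, `12`-connectivity is sufficient and
`11`-connectivity is not.)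

Proof. Let `C` be the closure of `G`, and suppose that it is not complete; let `R` be a maximal
clique of `C` which contains the dominating clique. By the rank formula for closed graphs with a
dominating clique (`Pool.Agent.N423.HB.nul_hub`), the gain of a vertex `v` (the decrease of the rank
when `v` is removed) is its degree minus the sum of `|X| - 4` over the maximal cliques `X` with at
least five vertices that contain `v`, and twice the rank minus `6 |R| - 12` is at least the sum of
`gain + (number of neighbours in R)` over the vertices outside of `R` plus the sum of
`(|X| - 4) (3 - |X ∩ R|)` over the other maximal cliques `X`. The vertices with gain three or four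
have at most one neighbour outside of the clique `X` containing them, and because many vertices of
`X` have neighbours outside of `X`, their deficit is compensated by the term of `X`.
So the rank is `3 |V| - 6`.

Paper proof and assembly: helper423. Lean parts: helpers 919 (`Pool.Agent.N423.HB.c1x`), 482
(`Pool.Agent.N423.HB.c2x`, `c2k`, `c2d`), 887 (`Pool.Agent.N423.HB.c3`), 118, 322, and, for
`Pool.Agent.N423.DT.t_k5t`, helpers 233, 360, 578, 803, 222, 401, 519, 232, 499, 787, 441, 286, 51,
879, 221, 935, 697, 495, 273, 492, 596, 368, 27, 55, 559, 50, 407, 433, 654, 723, 475, 768.
-/

set_option autoImplicit false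

namespace Pool.Agent.Results.MP_37c7bf_co.SevenConnected

open Pool.Agent.H283R2.DR Pool.Agent.H789R5 Pool.Agent.N423.DE Pool.Agent.N423.HB

/-- **Connectivity and rigidity in `ℝ³` for graphs with a dominating clique.** Let `G` be a finite
graph and let `R` be a nonempty set of vertices which are pairwise linked in `ℝ³`, such that every
other vertex is linked to at least one vertex of `R` (adjacent pairs are linked; e.g. `R` is a
clique such that every other vertex has a neighbour in `R`). Then `G` is generically rigid in `ℝ³`
in each of the following cases:
(1) `G` stays connected after the removal of any set of fewer than seven vertices;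
(2) `G` stays connected after the removal of any set of fewer than five vertices, and every edge of
`G` is in a complete graph with four vertices;
(3) `G` stays connected after the removal of any set of fewer than four vertices, and every vertex
outside of `R` is linked to at least two vertices of `R`. -/
theorem result (V : Type) [Fintype V] (G : SimpleGraph V) (R : Finset V)
    (hR : R.Nonempty) (hlink : ∀ a ∈ R, ∀ b ∈ R, a ≠ b → Linked 3 G a b)
    (hdom : ∀ v, v ∉ R → ∃ r ∈ R, Linked 3 G v r) :
    (KConnected 7 G → GenRigid 3 G) ∧
    (KConnected 5 G → K4Cov G → GenRigid 3 G) ∧
    (KConnected 4 G → (∀ v, v ∉ R → ∃ r ∈ R, ∃ r' ∈ R, r ≠ r' ∧ Linked 3 G v r ∧ Linked 3 G v r') →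
      GenRigid 3 G) := by
  have key : ∀ k : ℕ, 3 ≤ k → KConnected k G → 3 ≤ Fintype.card V := by
    intro k hk hG
    by_contra hV
    obtain ⟨⟨x, hx⟩⟩ := (hG Finset.univ (by rw [Finset.card_univ]; omega)).nonempty
    exact hx (by simp)
  refine ⟨fun hG => ?_, fun hG hK => ?_, fun hG h2 => ?_⟩
  · exact sev V G (key 7 (by omega) hG) (con7_of hG) R hR ⟨hlink, hdom⟩
  · exact fiveK c1x c2k c3 V G (key 5 (by omega) hG) (con5_of hG) hK R hR ⟨hlink, hdom⟩
  · exact four c1x c2d c3 V G (key 4 (by omega) hG) (con4_of hG) R hR ⟨hlink, hdom⟩ h2

end Pool.Agent.Results.MP_37c7bf_co.SevenConnected
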